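import Pool.Agent.H8.SC.Main
import Pool.Agent.H71.ER.Box

/-! # SCH.IncB : the statement of EllipticSurfaces (one surface, zero section contracted) from the theorem on fibre products with one factor -/

namespace SCX

open ES H68.BB GB RR FX

variable {K : Type} [Field K] [IsAlgClosed K] [CharZero K]

/-- the theorem EllipticSurfaces -/
theorem incB {s d g k : ℕ} {W : Wm K s} (hW : W.Ok) (hB : SmC W.v W.I d g)
    (hab : ∀ c e : K, MvPolynomial.C c * W.a ^ 3 - MvPolynomial.C e * W.b ^ 2 ∈ Ideal.span W.I → c = 0 ∧ e = 0)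
    (hk : W.n * d + g ≤ k) (z : Fin k → (Pt s K →₀ ℤ)) (hz : ∀ i, ∀ P ∈ (z i).support, OnW W P)
    (h0 : ∀ i, ((z i).sum fun _ c => c) = 0) : ∃ N : ℕ, 0 < N ∧ N • altz z ∈ RatEq k W := by
  refine altz_mem h0 fun P hP => ?_
  have : (Ideal.span W.I).IsPrime := hB.prime
  obtain ⟨β⟩ := pt_ne hB
  have hI : ∀ f ∈ W.I, ev f β.1 = 0 := fun f hf => by
    have h1 := β.2.2 f hf
    rw [← MvPolynomial.coe_aeval_eq_eval] at h1
    exact h1
  let X : XD K s 1 := ⟨W.v, W.I, fun _ => W.n, fun _ => W.a, fun _ => W.b⟩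
  have hX : X.Ok := ⟨hW.v, fun _ => hW.n, hW.I, fun _ => hW.a, fun _ => hW.b⟩
  exact alt_of_altX (X := X) (P := P) (fun i => hz i _ (hP i)) β.2.1 hI fun R hR =>
    altX_all hX Nat.one_pos hB (fun _ => hab) (by rw [Finset.univ_unique, Finset.sum_singleton]; exact hk) R hR

end SCX
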