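import Pool.Agent.H79.FX.FinX
import Pool.Agent.H67.EX.MainX
import Pool.Agent.H8.SC.Schoen
import Pool.Agent.H99.RR.ZP1

/-! # SCH.Res : the theorems on zero-cycles on fibre products of elliptic surfaces (from the main theorem over charts `main_x`) -/

namespace SCX

open ES H68.BB GB RR FX

variable {K : Type} [Field K] [IsAlgClosed K] [CharZero K] {s c d g : ℕ} {X : XD K s c}

/-- fibre products over a smooth projective curve -/
theorem all_z (hX : X.Ok) (hc : 0 < c) (h : SmC X.v X.I d g)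
    (hab : ∀ j, ∀ e e' : K, MvPolynomial.C e * X.a j ^ 3 - MvPolynomial.C e' * X.b j ^ 2 ∈ Ideal.span X.I → e = 0 ∧ e' = 0)
    {k : ℕ} (hk : (∑ j, X.n j) * d + g ≤ k) {z : Fin k → (Row s c K →₀ ℤ)} (hz : ∀ i, ∀ R ∈ (z i).support, OnX X R)
    (hr : ∀ i j, ∃ N : ℕ, 0 < N ∧ N • boxX (fun _ : Fin 1 => (z i).mapDomain (rho j)) ∈ RatX 1 X) :
    ∃ N : ℕ, 0 < N ∧ N • altzX z ∈ RatX k X :=
  altzX_mem hX (fun _ hR => main_smX (main_x K) hX hc h hab hk hR) hz hr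

omit [IsAlgClosed K] [CharZero K] in
private theorem res_hab {a b : MvPolynomial (Fin 2) K} (hab : ∀ e e' : K, e • a ^ 3 = e' • b ^ 2 → e = 0 ∧ e' = 0) (e e' : K)
    (h : MvPolynomial.C e * a ^ 3 - MvPolynomial.C e' * b ^ 2 ∈ Ideal.span (∅ : Set (MvPolynomial (Fin 2) K))) : e = 0 ∧ e' = 0 := by
  apply hab
  rw [Ideal.span_empty, Ideal.mem_bot, sub_eq_zero] at h
  rw [MvPolynomial.smul_eq_C_mul, MvPolynomial.smul_eq_C_mul]
  exact h

omit [IsAlgClosed K] [CharZero K] in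
theorem XP_ok {c : ℕ} {n : Fin c → ℕ} {a b : Fin c → MvPolynomial (Fin 2) K} (hn : ∀ j, 0 < n j) (ha : ∀ j, (a j).IsHomogeneous (4 * n j))
    (hb : ∀ j, (b j).IsHomogeneous (6 * n j)) : (XP n a b).Ok :=
  ⟨fun _ => one_pos, hn, fun f hf => absurd hf (Set.notMem_empty f), ha, hb⟩

/-- over the projective line: one surface, or two rational surfaces -/
theorem all_P1 {c k : ℕ} {n : Fin c → ℕ} {a b : Fin c → MvPolynomial (Fin 2) K} (hc : c = 1 ∨ (c = 2 ∧ ∀ j, n j = 1))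
    (hn : ∀ j, 0 < n j) (ha : ∀ j, (a j).IsHomogeneous (4 * n j)) (hb : ∀ j, (b j).IsHomogeneous (6 * n j))
    (hab : ∀ j, ∀ e e' : K, e • a j ^ 3 = e' • b j ^ 2 → e = 0 ∧ e' = 0) (hk : ∑ j, n j ≤ k)
    {z : Fin k → (Row 2 c K →₀ ℤ)} (hz : ∀ i, ∀ R ∈ (z i).support, OnX (XP n a b) R) (h0 : ∀ i, ((z i).sum fun _ m => m) = 0) :
    ∃ N : ℕ, 0 < N ∧ N • altzX z ∈ RatX k (XP n a b) := by
  have hX : (XP n a b).Ok := XP_ok hn ha hb
  have hc0 : 0 < c := by omega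
  refine altzX_P1 hX hc (fun j hj R hR => ?_) (fun R hR => ?_) hz h0
  · have hXj : (colX (XP n a b) j).Ok := ⟨hX.v, fun _ => hX.n j, hX.I, fun _ => hX.a j, fun _ => hX.b j⟩
    refine main_smX (main_x K) hXj one_pos (smC_P1 (K := K)) (fun _ e e' h => res_hab (hab j) e e' h) ?_ hR
    show (∑ _j : Fin 1, n j) * 1 + 0 ≤ 1
    rw [Fin.sum_univ_one, hj]
  · refine main_smX (main_x K) hX hc0 (smC_P1 (K := K)) (fun j e e' h => res_hab (hab j) e e' h) ?_ hR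
    show (∑ j, n j) * 1 + 0 ≤ k
    omega

end SCX
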